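import Pool.Agent.Y501.SY.StmT
import Pool.Agent.Y501.SY.Cover

/-!
Project SYT of helper501, job GLOB, by helper929: adding a small multiple of a form which is taming
where the given form is not uniformly taming.
-/

set_option autoImplicit false
set_option linter.unusedSectionVars false

open Set Filter Topology MeasureTheory
open scoped Manifold ContDiff

noncomputable section

namespace Pool.Agent.Y929.SY

open Pool.Agent.Y501.SY
open Pool.Agent.Y455.SY (A B AB BA A_surj Q Q_eq Q_sum t_PERT)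

section

variable {d : ℕ} {X : Type} [TopologicalSpace X] [ChartedSpace (E d) X]

theorem ev_of_chart {x₀ : X} {P : X → Prop}
    (h : ∀ᶠ p in 𝓝 (chartAt (E d) x₀ x₀), P ((chartAt (E d) x₀).symm p)) :
    ∀ᶠ y in 𝓝 x₀, P y := by
  have h1 := ((chartAt (E d) x₀).continuousAt (mem_chart_source (E d) x₀)).eventually h
  filter_upwards [h1, (chartAt (E d) x₀).open_source.mem_nhds (mem_chart_source (E d) x₀)]
    with y hy hys
  rwa [(chartAt (E d) x₀).left_inv hys] at hy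

theorem ev_to_chart {x₀ : X} {P : X → Prop} (h : ∀ᶠ y in 𝓝 x₀, P y) :
    ∀ᶠ p in 𝓝 (chartAt (E d) x₀ x₀), P ((chartAt (E d) x₀).symm p) := by
  have h1 := (chartAt (E d) x₀).continuousAt_symm (mem_chart_target (E d) x₀)
  refine h1.eventually ?_
  rw [(chartAt (E d) x₀).left_inv (mem_chart_source (E d) x₀)]
  exact h

theorem near {x₀ : X} {S : Set (E d)} (hS : S ∈ 𝓝 (chartAt (E d) x₀ x₀)) :
    ∃ N, IsCompact N ∧ N ∈ 𝓝 (chartAt (E d) x₀ x₀) ∧ N ⊆ S := by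
  obtain ⟨r, hr, h⟩ := Metric.nhds_basis_closedBall.mem_iff.1 hS
  exact ⟨Metric.closedBall _ r, isCompact_closedBall _ r, Metric.closedBall_mem_nhds _ hr, h⟩

variable [IsManifold (𝓡 d) ∞ X]

theorem Q_add (σ η : Form d X 2) (s : ℝ) (J : End d X) (x : X) (p v : E d) :
    Q (σ + s • η) J x p v = Q σ J x p v + s * Q η J x p v := by
  have h4 := Q_sum (κ := Unit) σ (fun _ => η) (fun _ => s) J x p v
  simpa using h4

theorem pb_apply2 (τ : Form d X 2) (x₀ : X) (p v w : E d) :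
    pb (chartAt (E d) x₀).symm τ p ![v, w] =
      τ ((chartAt (E d) x₀).symm p) ![A x₀ p v, A x₀ p w] := by
  have h1 : pb (chartAt (E d) x₀).symm τ p ![v, w] =
      τ ((chartAt (E d) x₀).symm p) (fun i => A x₀ p ((![v, w] : Fin 2 → E d) i)) := rfl
  rw [h1]
  congr 1
  funext i
  fin_cases i <;> rfl

/-- positivity near a point -/
theorem pos_near (hI : S_IMM) (hQ : S_QB) {m : ℕ} (F : X → E m)
    (hF : ContMDiff (𝓡 d) (𝓡 m) ∞ F)
    (hinj : ∀ x, Function.Injective (mfderiv (𝓡 d) (𝓡 m) F x))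
    (J : End d X) (hJ : IsAlmostComplex J) (σ η : Form d X 2) (K : Set X) (hη : IsSmooth η)
    (hnn : ∀ x, x ∉ K → ∀ v : TangentSpace (𝓡 d) x, 0 ≤ σ x ![v, J x v]) (x₀ : X)
    (h : UTAt σ J K x₀ ∨ TamesAt η J x₀) :
    ∃ ε : ℝ, 0 < ε ∧ ∀ᶠ y in 𝓝 x₀, ∀ s : ℝ, 0 < s → s ≤ ε → y ∉ K →
      ∀ v : TangentSpace (𝓡 d) y, ε * s * nm F y v ^ 2 ≤ (σ + s • η) y ![v, J y v] := by
  have htar : (chartAt (E d) x₀).target ∈ 𝓝 (chartAt (E d) x₀ x₀) :=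
    (chartAt (E d) x₀).open_target.mem_nhds (mem_chart_target (E d) x₀)
  rcases h with ⟨c, hc, h⟩ | h
  · obtain ⟨N, hN, hN1, hN2⟩ := near htar
    obtain ⟨c₁, C₁, hc₁, hC₁, hnm⟩ := hI d m X F hF hinj x₀ N hN hN2
    obtain ⟨⟨C₂, hC₂, hb⟩, -⟩ := hQ d X J hJ η hη x₀ N hN hN2
    obtain ⟨ε, hε, hε1, hε2, hε3⟩ : ∃ ε : ℝ, 0 < ε ∧ ε ≤ c / (2 * C₂) ∧ ε ≤ 1 ∧
        ε ≤ c / (2 * C₁ ^ 2) :=
      ⟨min (c / (2 * C₂)) (min 1 (c / (2 * C₁ ^ 2))), by positivity, min_le_left _ _,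
        (min_le_right _ _).trans (min_le_left _ _), (min_le_right _ _).trans (min_le_right _ _)⟩
    refine ⟨ε, hε, ev_of_chart (d := d) ?_⟩
    filter_upwards [hN1, h] with p hp hpc s hs hsε hpK v
    obtain ⟨v', rfl⟩ := A_surj x₀ (hN2 hp) v
    have h1 := Q_eq (σ + s • η) J x₀ (hN2 hp) v'
    rw [Q_add] at h1
    refine le_of_le_of_eq ?_ h1
    have h2 : c * ‖v'‖ ^ 2 ≤ Q σ J x₀ p v' := hpc hpK v'
    have h3 : |Q η J x₀ p v'| ≤ C₂ * ‖v'‖ ^ 2 := (hb p hp).2.2 v'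
    have h4 : nm F ((chartAt (E d) x₀).symm p) (A x₀ p v') ≤ C₁ * ‖v'‖ := (hnm p hp v').2
    have h5 : 0 ≤ nm F ((chartAt (E d) x₀).symm p) (A x₀ p v') := norm_nonneg _
    have h6 : nm F ((chartAt (E d) x₀).symm p) (A x₀ p v') ^ 2 ≤ C₁ ^ 2 * ‖v'‖ ^ 2 := by
      rw [← mul_pow]
      exact pow_le_pow_left₀ h5 h4 2
    have h7 : ε * s ≤ c / (2 * C₁ ^ 2) := by
      have : ε * s ≤ ε * 1 := mul_le_mul_of_nonneg_left (hsε.trans hε2) hε.le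
      linarith
    have h8 : ε * s * nm F ((chartAt (E d) x₀).symm p) (A x₀ p v') ^ 2 ≤ c / 2 * ‖v'‖ ^ 2 := by
      calc ε * s * nm F ((chartAt (E d) x₀).symm p) (A x₀ p v') ^ 2
          ≤ c / (2 * C₁ ^ 2) * (C₁ ^ 2 * ‖v'‖ ^ 2) :=
            mul_le_mul h7 h6 (sq_nonneg _) (by positivity)
        _ = c / 2 * ‖v'‖ ^ 2 := by field_simp
    have h9 : s * |Q η J x₀ p v'| ≤ c / 2 * ‖v'‖ ^ 2 := by
      calc s * |Q η J x₀ p v'| ≤ c / (2 * C₂) * (C₂ * ‖v'‖ ^ 2) :=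
            mul_le_mul (hsε.trans hε1) h3 (abs_nonneg _) (by positivity)
        _ = c / 2 * ‖v'‖ ^ 2 := by field_simp
    have h10 : -(s * |Q η J x₀ p v'|) ≤ s * Q η J x₀ p v' := by
      have := neg_abs_le (Q η J x₀ p v')
      nlinarith
    linarith
  · have hta := ev_to_chart (d := d) (TamesAt.nhds t_PERT hJ hη h)
    obtain ⟨N, hN, hN1, hN2⟩ := near (Filter.inter_mem htar hta)
    have hN3 : N ⊆ (chartAt (E d) x₀).target := fun p hp => (hN2 hp).1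
    obtain ⟨c₁, C₁, hc₁, hC₁, hnm⟩ := hI d m X F hF hinj x₀ N hN hN3
    obtain ⟨c₂, hc₂, hb⟩ := (hQ d X J hJ η hη x₀ N hN hN3).2 fun p hp => (hN2 hp).2
    refine ⟨c₂ / C₁ ^ 2, by positivity, ev_of_chart (d := d) ?_⟩
    filter_upwards [hN1] with p hp s hs hsε hpK v
    obtain ⟨v', rfl⟩ := A_surj x₀ (hN3 hp) v
    have h1 := Q_eq (σ + s • η) J x₀ (hN3 hp) v'
    rw [Q_add] at h1
    refine le_of_le_of_eq ?_ h1
    have h2 : 0 ≤ Q σ J x₀ p v' := by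
      rw [Q_eq σ J x₀ (hN3 hp)]
      exact hnn _ hpK _
    have h3 : c₂ * ‖v'‖ ^ 2 ≤ Q η J x₀ p v' := hb p hp v'
    have h4 : nm F ((chartAt (E d) x₀).symm p) (A x₀ p v') ≤ C₁ * ‖v'‖ := (hnm p hp v').2
    have h5 : 0 ≤ nm F ((chartAt (E d) x₀).symm p) (A x₀ p v') := norm_nonneg _
    have h6 : nm F ((chartAt (E d) x₀).symm p) (A x₀ p v') ^ 2 ≤ C₁ ^ 2 * ‖v'‖ ^ 2 := by
      rw [← mul_pow]
      exact pow_le_pow_left₀ h5 h4 2
    have h8 : c₂ / C₁ ^ 2 * s * nm F ((chartAt (E d) x₀).symm p) (A x₀ p v') ^ 2 ≤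
        s * (c₂ * ‖v'‖ ^ 2) := by
      calc c₂ / C₁ ^ 2 * s * nm F ((chartAt (E d) x₀).symm p) (A x₀ p v') ^ 2
          ≤ c₂ / C₁ ^ 2 * s * (C₁ ^ 2 * ‖v'‖ ^ 2) :=
            mul_le_mul_of_nonneg_left h6 (by positivity)
        _ = s * (c₂ * ‖v'‖ ^ 2) := by field_simp
    have h9 : s * (c₂ * ‖v'‖ ^ 2) ≤ s * Q η J x₀ p v' := mul_le_mul_of_nonneg_left h3 hs.le
    linarith

/-- boundedness near a point -/
theorem bdd_near (hI : S_IMM) (hQ : S_QB) {m : ℕ} (F : X → E m)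
    (hF : ContMDiff (𝓡 d) (𝓡 m) ∞ F)
    (hinj : ∀ x, Function.Injective (mfderiv (𝓡 d) (𝓡 m) F x))
    (J : End d X) (hJ : IsAlmostComplex J) (σ η : Form d X 2) (K : Set X) (hη : IsSmooth η)
    (s : ℝ) (x₀ : X) (h : BddAt σ K x₀) :
    ∃ ε : ℝ, 0 < ε ∧ ∀ᶠ y in 𝓝 x₀, y ∉ K →
      ∀ v w : TangentSpace (𝓡 d) y, ε * |(σ + s • η) y ![v, w]| ≤ nm F y v * nm F y w := by
  have htar : (chartAt (E d) x₀).target ∈ 𝓝 (chartAt (E d) x₀ x₀) :=
    (chartAt (E d) x₀).open_target.mem_nhds (mem_chart_target (E d) x₀)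
  obtain ⟨B₀, hB₀⟩ := h
  obtain ⟨N, hN, hN1, hN2⟩ := near htar
  obtain ⟨c₁, C₁, hc₁, hC₁, hnm⟩ := hI d m X F hF hinj x₀ N hN hN2
  obtain ⟨⟨C₂, hC₂, hb⟩, -⟩ := hQ d X J hJ η hη x₀ N hN hN2
  obtain ⟨M, hM⟩ : ∃ M : ℝ, M = |B₀| + |s| * C₂ + 1 := ⟨_, rfl⟩
  have hM0 : 0 < M := by
    rw [hM]
    positivity
  refine ⟨c₁ ^ 2 / M, by positivity, ev_of_chart (d := d) ?_⟩
  filter_upwards [hN1, hB₀] with p hp hpB hpK v w
  obtain ⟨v', rfl⟩ := A_surj x₀ (hN2 hp) v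
  obtain ⟨w', rfl⟩ := A_surj x₀ (hN2 hp) w
  have h1 : (σ + s • η) ((chartAt (E d) x₀).symm p) ![A x₀ p v', A x₀ p w'] =
      pb (chartAt (E d) x₀).symm σ p ![v', w'] + s * pb (chartAt (E d) x₀).symm η p ![v', w'] := by
    rw [pb_apply2, pb_apply2]
    rfl
  have hno : ∀ f : (E d) [⋀^Fin 2]→L[ℝ] ℝ, |f ![v', w']| ≤ ‖f‖ * (‖v'‖ * ‖w'‖) := by
    intro f
    have h2 := f.le_opNorm ![v', w']
    rw [Fin.prod_univ_two] at h2
    exact h2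
  have h2 : |pb (chartAt (E d) x₀).symm σ p ![v', w']| ≤ |B₀| * (‖v'‖ * ‖w'‖) :=
    (hno _).trans (mul_le_mul_of_nonneg_right ((hpB hpK).trans (le_abs_self _)) (by positivity))
  have h3 : |pb (chartAt (E d) x₀).symm η p ![v', w']| ≤ C₂ * (‖v'‖ * ‖w'‖) :=
    (hno _).trans (mul_le_mul_of_nonneg_right (hb p hp).1 (by positivity))
  have h4 : |(σ + s • η) ((chartAt (E d) x₀).symm p) ![A x₀ p v', A x₀ p w']| ≤
      M * (‖v'‖ * ‖w'‖) := by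
    rw [h1]
    refine (abs_add_le _ _).trans ?_
    rw [abs_mul]
    have h5 := mul_le_mul_of_nonneg_left h3 (abs_nonneg s)
    have h6 : 0 ≤ ‖v'‖ * ‖w'‖ := by positivity
    rw [hM]
    nlinarith
  have h5 : c₁ * ‖v'‖ ≤ nm F ((chartAt (E d) x₀).symm p) (A x₀ p v') := (hnm p hp v').1
  have h6 : c₁ * ‖w'‖ ≤ nm F ((chartAt (E d) x₀).symm p) (A x₀ p w') := (hnm p hp w').1
  calc c₁ ^ 2 / M * |(σ + s • η) ((chartAt (E d) x₀).symm p) ![A x₀ p v', A x₀ p w']|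
      ≤ c₁ ^ 2 / M * (M * (‖v'‖ * ‖w'‖)) := mul_le_mul_of_nonneg_left h4 (by positivity)
    _ = (c₁ * ‖v'‖) * (c₁ * ‖w'‖) := by field_simp
    _ ≤ _ := mul_le_mul h5 h6 (by positivity) (norm_nonneg _)

end

theorem t_GLOB : Pool.Agent.Y501.SY.S_GLOB := by
  intro hI hQ d m X _ _ _ _ _ F hF hinj J hJ σ η K hK hσs hσd hηs hηd hbd hnn hut
  obtain ⟨ε, hε, hpos⟩ := unif (isCompact_univ (X := X))
    (fun ε y => ∀ s : ℝ, 0 < s → s ≤ ε → y ∉ K →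
      ∀ v : TangentSpace (𝓡 d) y, ε * s * nm F y v ^ 2 ≤ (σ + s • η) y ![v, J y v])
    (fun ε ε' y hle hp s hs hsε hy v => by
      refine le_trans ?_ (hp s hs (hsε.trans hle) hy v)
      exact mul_le_mul_of_nonneg_right (mul_le_mul_of_nonneg_right hle hs.le) (sq_nonneg _))
    (fun x _ => pos_near hI hQ F hF hinj J hJ σ η K hηs hnn x (hut x))
  obtain ⟨δ, hδ, hb⟩ := unif (isCompact_univ (X := X))
    (fun δ y => y ∉ K → ∀ v w : TangentSpace (𝓡 d) y,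
      δ * |(σ + ε • η) y ![v, w]| ≤ nm F y v * nm F y w)
    (fun ε ε' y hle hp hy v w => by
      refine le_trans ?_ (hp hy v w)
      exact mul_le_mul_of_nonneg_right hle (abs_nonneg _))
    (fun x _ => bdd_near hI hQ F hF hinj J hJ σ η K hηs ε x (hbd x))
  refine ⟨ε, hε, ?_, ?_, ⟨1 / δ, by positivity, fun x hx v w => ?_⟩,
    ⟨ε * ε, by positivity, fun x hx v => hpos x (mem_univ x) ε hε le_rfl hx v⟩⟩
  · intro U φ hU hφ hUK
    rw [pb_add, pb_smul]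
    exact (hσs U φ hU hφ hUK).add (contDiffOn_const.smul (hηs U φ hU hφ))
  · intro U φ hU hφ hUK p hp
    have h1 : DifferentiableAt ℝ (pb φ σ) p :=
      ((hσs U φ hU hφ hUK).contDiffAt (hU.mem_nhds hp)).differentiableAt (by simp)
    have h2 : DifferentiableAt ℝ (pb φ (ε • η)) p := (hηs.smul ε).diffAt hU hφ hp
    rw [pb_add, extDeriv_add h1 h2, hσd U φ hU hφ hUK p hp, pb_smul, extDeriv_smul,
      hηd U φ hU hφ p hp, pb_zero]
    simp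
  · have h1 := hb x (mem_univ x) hx v w
    rw [mul_assoc, one_div, ← div_eq_inv_mul, le_div_iff₀ hδ]
    linarith

end Pool.Agent.Y929.SY
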